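import Pool.Agent.Helper51.PP.Spec

/-!
# Swarm PC, part GRL: functions with prescribed gradient as limits
-/

set_option autoImplicit false

namespace Pool.Agent.Helper86.PC.GRL

open Pool.Agent.Helper51.PP
open MeasureTheory ProbabilityTheory Filter Topology
open scoped ENNReal BigOperators

theorem exists_lim {X E : Type} (nx : X → E → X) (x0 : X) (ψ : ℕ → X → ℝ) (w : X → E → ℝ)
    (h : ∀ x e, Reach nx x0 x → Tendsto (fun l => grad nx (ψ l) x e) atTop (𝓝 (w x e)))
    (x : X) (hx : Reach nx x0 x) :
    ∃ a : ℝ, Tendsto (fun l => ψ l x - ψ l x0) atTop (𝓝 a) := by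
  induction hx with
  | refl => exact ⟨0, by simp⟩
  | step x e hx ih =>
    obtain ⟨a, ha⟩ := ih
    refine ⟨w x e + a, ?_⟩
    have h1 := (h x e hx).add ha
    refine h1.congr fun l => ?_
    simp only [grad]
    ring

theorem main : S_GRL := by
  intro X E nx x0 ψ w h
  classical
  let u : X → ℝ := fun x => if hx : Reach nx x0 x then
    Classical.choose (exists_lim nx x0 ψ w h x hx) else 0
  have hu : ∀ x, Reach nx x0 x → Tendsto (fun l => ψ l x - ψ l x0) atTop (𝓝 (u x)) := by
    intro x hx
    have h1 := Classical.choose_spec (exists_lim nx x0 ψ w h x hx)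
    have h2 : u x = Classical.choose (exists_lim nx x0 ψ w h x hx) := by
      simp only [u, dif_pos hx]
    rw [h2]
    exact h1
  refine ⟨u, ?_, ?_⟩
  · have h1 := hu x0 Reach.refl
    have h2 : Tendsto (fun l => ψ l x0 - ψ l x0) atTop (𝓝 (0 : ℝ)) := by simp
    exact tendsto_nhds_unique h1 h2
  · intro x e hx
    have h1 := hu x hx
    have h2 := hu (nx x e) (Reach.step x e hx)
    have h3 : Tendsto (fun l => grad nx (ψ l) x e) atTop (𝓝 (u (nx x e) - u x)) := by
      refine (h2.sub h1).congr fun l => ?_
      simp only [grad]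
      ring
    exact tendsto_nhds_unique h3 (h x e hx)

end Pool.Agent.Helper86.PC.GRL
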