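import Pool.Agent.Helper51.PP.Spec

/-!
# Swarm PC, part PTW: small time averages give pointwise convergence on reachable points
-/

set_option autoImplicit false

namespace Pool.Agent.Helper86.PC.PTW

open Pool.Agent.Helper51.PP
open MeasureTheory ProbabilityTheory Filter Topology
open scoped ENNReal BigOperators

variable {X E : Type} [Fintype E]

theorem PRn_PR (nx : X → E → X) (f : X → ℝ) (n : ℕ) :
    PRn nx (PR nx f) n = PRn nx f (n + 1) := by
  induction n with
  | zero => rfl
  | succ n ih =>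
    show PR nx (PRn nx (PR nx f) n) = PR nx (PRn nx f (n + 1))
    rw [ih]

theorem PR_nonneg (nx : X → E → X) (f : X → ℝ) (hf : ∀ x, 0 ≤ f x) (x : X) : 0 ≤ PR nx f x := by
  unfold PR
  have : 0 ≤ ∑ e, f (nx x e) := Finset.sum_nonneg fun e _ => hf _
  positivity

theorem PRn_nonneg (nx : X → E → X) (f : X → ℝ) (hf : ∀ x, 0 ≤ f x) (n : ℕ) (x : X) :
    0 ≤ PRn nx f n x := by
  induction n generalizing x with
  | zero => exact hf x
  | succ n ih => exact PR_nonneg nx _ ih x

theorem reach_lower [Nonempty E] (nx : X → E → X) (x0 x : X) (hx : Reach nx x0 x) :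
    ∃ (j : ℕ) (c : ℝ), 0 < c ∧ ∀ f : X → ℝ, (∀ y, 0 ≤ f y) → c * f x ≤ PRn nx f j x0 := by
  induction hx with
  | refl => exact ⟨0, 1, one_pos, fun f _ => by simp [PRn]⟩
  | step x e hx ih =>
    obtain ⟨j, c, hc, h⟩ := ih
    have hE : 0 < (Fintype.card E : ℝ) := by
      have := Fintype.card_pos (α := E)
      exact_mod_cast this
    refine ⟨j + 1, c * (Fintype.card E : ℝ)⁻¹, by positivity, fun f hf => ?_⟩
    have h1 := h (PR nx f) (PR_nonneg nx f hf)
    rw [PRn_PR] at h1
    refine le_trans ?_ h1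
    rw [mul_assoc]
    refine mul_le_mul_of_nonneg_left ?_ hc.le
    unfold PR
    refine mul_le_mul_of_nonneg_left ?_ (by positivity)
    exact Finset.single_le_sum (f := fun e => f (nx x e)) (fun e _ => hf _) (Finset.mem_univ e)

theorem Vf_nonneg (c : X → E → ℝ) (x : X) : 0 ≤ Vf c x := by
  unfold Vf
  have : 0 ≤ ∑ e, (c x e) ^ 2 := Finset.sum_nonneg fun e _ => sq_nonneg _
  positivity

theorem sq_le_Vf [Nonempty E] (c : X → E → ℝ) (x : X) (e : E) :
    (c x e) ^ 2 ≤ (Fintype.card E : ℝ) * Vf c x := by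
  have hE : 0 < (Fintype.card E : ℝ) := by
    have := Fintype.card_pos (α := E)
    exact_mod_cast this
  unfold Vf
  rw [← mul_assoc, mul_inv_cancel₀ hE.ne', one_mul]
  exact Finset.single_le_sum (f := fun e => (c x e) ^ 2) (fun e _ => sq_nonneg _)
    (Finset.mem_univ e)

theorem main : S_PTW := by
  intro X E _ _ nx x0 η lam hlam hS x e hx
  obtain ⟨j, c, hc, h⟩ := reach_lower nx x0 x hx
  have hE : 0 < (Fintype.card E : ℝ) := by
    have := Fintype.card_pos (α := E)
    exact_mod_cast this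
  -- squares go to zero
  have hsq : Tendsto (fun k => (η k x e) ^ 2) atTop (𝓝 0) := by
    have hup : Tendsto (fun k => (Fintype.card E : ℝ) * (c⁻¹ * (lam k * ((j + 1 : ℕ) : ℝ))))
        atTop (𝓝 0) := by
      have h1 := ((hlam.mul_const (((j + 1 : ℕ) : ℝ))).const_mul c⁻¹).const_mul
        (Fintype.card E : ℝ)
      simpa using h1
    refine squeeze_zero' (Eventually.of_forall fun k => sq_nonneg _) ?_ hup
    filter_upwards [hS] with k hk
    refine le_trans (sq_le_Vf (η k) x e) ?_
    refine mul_le_mul_of_nonneg_left ?_ hE.le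
    have h1 := hk (j + 1)
    have h2 : PRn nx (Vf (η k)) j x0 ≤ SR nx (Vf (η k)) (j + 1) x0 := by
      unfold SR
      exact Finset.single_le_sum (f := fun i => PRn nx (Vf (η k)) i x0)
        (fun i _ => PRn_nonneg nx _ (Vf_nonneg (η k)) i x0) (Finset.mem_range.mpr (Nat.lt_succ_self j))
    have h3 := h (Vf (η k)) (Vf_nonneg (η k))
    have h4 : c * Vf (η k) x ≤ lam k * ((j + 1 : ℕ) : ℝ) := h3.trans (h2.trans h1)
    rw [le_inv_mul_iff₀ hc]
    exact h4
  have habs : Tendsto (fun k => |η k x e|) atTop (𝓝 0) := by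
    have h1 := hsq.sqrt
    rw [Real.sqrt_zero] at h1
    refine h1.congr fun k => ?_
    exact Real.sqrt_sq_eq_abs _
  exact (tendsto_zero_iff_abs_tendsto_zero _).mpr habs

end Pool.Agent.Helper86.PC.PTW
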